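import Pool.Agent.R598.CR.Defs

/-!
# The notion of forcing, the group and the names
-/

set_option autoImplicit false

namespace Pool.Agent.R598.CR

open Pool.Agent.W868 Pool.Agent.W868.PName Pool.Agent.R598.SY
open ZFSet (pair)

/-- Conditions: finite partial functions from `(ℕ × ℕ) × ℕ` to `{true, false}`. -/
structure Cd : Type where
  /-- the graph -/
  s : Set ((ℕ × ℕ) × ℕ × Bool)
  fin : s.Finite
  fn : ∀ a n, (a, n, true) ∈ s → (a, n, false) ∉ s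

theorem Cd.ext' {p q : Cd} (h : p.s = q.s) : p = q := by
  cases p
  cases q
  congr

instance : Preorder Cd where
  le p q := q.s ⊆ p.s
  le_refl _ := subset_rfl
  le_trans _ _ _ h h' := h'.trans h

instance : OrderTop Cd where
  top := ⟨∅, Set.finite_empty, fun _ _ h => h.elim⟩
  le_top _ := Set.empty_subset _

theorem le_def {p q : Cd} : p ≤ q ↔ q.s ⊆ p.s := Iff.rfl

theorem top_s : (⊤ : Cd).s = ∅ := rfl

/-- The action on the conditions. -/
def mv (ρ : Equiv.Perm (ℕ × ℕ)) (p : Cd) : Cd where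
  s := {x | (ρ.symm x.1, x.2) ∈ p.s}
  fin := by
    refine p.fin.preimage (f := fun x : (ℕ × ℕ) × ℕ × Bool => (ρ.symm x.1, x.2)) ?_
    rintro ⟨a, x⟩ - ⟨b, y⟩ - h
    obtain ⟨h1, h2⟩ := Prod.mk.inj h
    exact Prod.ext (ρ.symm.injective h1) h2
  fn a n := p.fn (ρ.symm a) n

theorem mem_mv {ρ : Equiv.Perm (ℕ × ℕ)} {p : Cd} {x : (ℕ × ℕ) × ℕ × Bool} :
    x ∈ (mv ρ p).s ↔ (ρ.symm x.1, x.2) ∈ p.s := Iff.rfl

theorem mv_le {ρ : Equiv.Perm (ℕ × ℕ)} {p q : Cd} (h : p ≤ q) : mv ρ p ≤ mv ρ q :=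
  fun _ hx => h hx

theorem mv_mul (ρ τ : Equiv.Perm (ℕ × ℕ)) (p : Cd) : mv (ρ * τ) p = mv ρ (mv τ p) := rfl

theorem mv_one (p : Cd) : mv 1 p = p := rfl

theorem mv_symm_mv (ρ : Equiv.Perm (ℕ × ℕ)) (p : Cd) : mv ρ.symm (mv ρ p) = p := by
  refine Cd.ext' (Set.ext fun x => ?_)
  rw [mem_mv, mem_mv]
  simp

theorem mv_mv_symm (ρ : Equiv.Perm (ℕ × ℕ)) (p : Cd) : mv ρ (mv ρ.symm p) = p := by
  refine Cd.ext' (Set.ext fun x => ?_)
  rw [mem_mv, mem_mv]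
  simp

/-- The group: the permutations that preserve the blocks. -/
def Gp : Subgroup (Equiv.Perm (ℕ × ℕ)) where
  carrier := {ρ | ∀ a b, (ρ a).1 = (ρ b).1 ↔ a.1 = b.1}
  mul_mem' := by
    intro ρ τ hρ hτ a b
    exact (hρ (τ a) (τ b)).trans (hτ a b)
  one_mem' := fun a b => Iff.rfl
  inv_mem' := by
    intro ρ hρ a b
    have h := hρ (ρ.symm a) (ρ.symm b)
    rw [Equiv.apply_symm_apply, Equiv.apply_symm_apply] at h
    exact h.symm

/-- The action. -/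
def acH : Gp →* (Cd ≃o Cd) where
  toFun ρ :=
    { toFun := mv ρ.1
      invFun := mv ρ.1.symm
      left_inv := mv_symm_mv ρ.1
      right_inv := mv_mv_symm ρ.1
      map_rel_iff' := by
        intro p q
        constructor
        · intro h
          have h1 := mv_le (ρ := ρ.1.symm) h
          simp only [Equiv.coe_fn_mk] at h1
          rwa [mv_symm_mv, mv_symm_mv] at h1
        · exact mv_le }
  map_one' := by
    ext p
    rfl
  map_mul' := by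
    intro ρ τ
    ext p
    rfl

theorem acH_apply (ρ : Gp) (p : Cd) : acH ρ p = mv ρ.1 p := rfl

/-- The pointwise stabilizer of a finite set. -/
def fixE (E : Finset (ℕ × ℕ)) : Subgroup Gp where
  carrier := {ρ | ∀ a ∈ E, ρ.1 a = a}
  mul_mem' := by
    intro ρ τ hρ hτ a ha
    change ρ.1 (τ.1 a) = a
    rw [hτ a ha, hρ a ha]
  one_mem' := fun a _ => rfl
  inv_mem' := by
    intro ρ hρ a ha
    change ρ.1⁻¹ a = a
    rw [Equiv.Perm.inv_eq_iff_eq, hρ a ha]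

theorem mem_fixE {E : Finset (ℕ × ℕ)} {ρ : Gp} : ρ ∈ fixE E ↔ ∀ a ∈ E, ρ.1 a = a := Iff.rfl

open Classical in
/-- The symmetric system. -/
def sys : Sys Cd where
  G := Gp
  grp := inferInstance
  ac := acH
  top := by
    intro ρ
    exact Cd.ext' rfl
  F := Set.range fixE
  ne := ⟨_, ⟨∅, rfl⟩⟩
  conj := by
    rintro _ ⟨E, rfl⟩ g
    refine ⟨_, ⟨E.image g.1, rfl⟩, fun k hk a ha => ?_⟩
    have h1 := hk (g.1 a) (Finset.mem_image_of_mem _ ha)
    change g.1.symm (k.1 (g.1 a)) = a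
    rw [h1, Equiv.symm_apply_apply]
  dir := by
    rintro _ ⟨E, rfl⟩ _ ⟨E', rfl⟩
    refine ⟨_, ⟨E ∪ E', rfl⟩, fun ρ hρ a ha => ?_, fun ρ hρ a ha => ?_⟩
    · exact hρ a (Finset.mem_union_left _ ha)
    · exact hρ a (Finset.mem_union_right _ ha)

theorem ac_apply (ρ : Gp) (p : Cd) : sys.ac ρ p = mv ρ.1 p := rfl

/-! ### The names -/

/-- A condition with a single value. -/
def sg (a : ℕ × ℕ) (n : ℕ) (b : Bool) : Cd where
  s := {(a, n, b)}
  fin := Set.finite_singleton _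
  fn := by
    intro c m h h'
    rw [Set.mem_singleton_iff] at h h'
    cases b <;> simp_all

/-- The name for the Cohen real `a`. -/
noncomputable def xN (a : ℕ × ℕ) : PName Cd :=
  PName.mk ℕ (fun n => check (nat n)) (fun n => sg a n true)

/-- The name for the block `i`. -/
noncomputable def bN (i : ℕ) : PName Cd := PName.mk ℕ (fun j => xN (i, j)) (fun _ => ⊤)

/-- The name for the set of the blocks. -/
noncomputable def AN : PName Cd := PName.mk ℕ bN (fun _ => ⊤)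

theorem el_xN {a : ℕ × ℕ} {z : PName Cd} {c : Cd} :
    El (xN a) z c ↔ ∃ n, z = check (nat n) ∧ c = sg a n true := by
  rw [xN, el_mk]
  constructor
  · rintro ⟨n, rfl, rfl⟩
    exact ⟨n, rfl, rfl⟩
  · rintro ⟨n, rfl, rfl⟩
    exact ⟨n, rfl, rfl⟩

theorem el_bN {i : ℕ} {z : PName Cd} {c : Cd} :
    El (bN i) z c ↔ ∃ j, z = xN (i, j) ∧ c = ⊤ := by
  rw [bN, el_mk]
  constructor
  · rintro ⟨n, rfl, rfl⟩
    exact ⟨n, rfl, rfl⟩
  · rintro ⟨n, rfl, rfl⟩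
    exact ⟨n, rfl, rfl⟩

theorem el_AN {z : PName Cd} {c : Cd} : El AN z c ↔ ∃ i, z = bN i ∧ c = ⊤ := by
  rw [AN, el_mk]
  constructor
  · rintro ⟨n, rfl, rfl⟩
    exact ⟨n, rfl, rfl⟩
  · rintro ⟨n, rfl, rfl⟩
    exact ⟨n, rfl, rfl⟩

theorem mv_sg (ρ : Equiv.Perm (ℕ × ℕ)) (a : ℕ × ℕ) (n : ℕ) (b : Bool) :
    mv ρ (sg a n b) = sg (ρ a) n b := by
  refine Cd.ext' (Set.ext fun x => ?_)
  obtain ⟨c, m, d⟩ := x
  rw [mem_mv]
  change (ρ.symm c, m, d) = (a, n, b) ↔ (c, m, d) = (ρ a, n, b)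
  constructor
  · intro h
    obtain ⟨h1, h2⟩ := Prod.mk.inj h
    rw [← h1, Equiv.apply_symm_apply, h2]
  · intro h
    obtain ⟨h1, h2⟩ := Prod.mk.inj h
    rw [h1, Equiv.symm_apply_apply, h2]

theorem act_xN (ρ : Gp) (a : ℕ × ℕ) : act (sys.ac ρ) (xN a) = xN (ρ.1 a) := by
  unfold xN act
  congr 1
  · funext n
    exact act_check (sys.top ρ) _
  · funext n
    exact mv_sg _ _ _ _

theorem act_bN {ρ : Gp} {i k : ℕ} (h : (ρ.1 (i, 0)).1 = k) (p : Cd) :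
    Feq (act (sys.ac ρ) (bN i)) (bN k) p := by
  refine feq_of_el fun z c => ?_
  rw [el_act, el_bN]
  constructor
  · rintro ⟨z, c, hz, rfl, rfl⟩
    obtain ⟨j, rfl, rfl⟩ := el_bN.1 hz
    refine ⟨(ρ.1 (i, j)).2, ?_, sys.top ρ⟩
    rw [act_xN]
    congr 1
    refine Prod.ext ?_ rfl
    rw [← h]
    exact (ρ.2 (i, j) (i, 0)).2 rfl
  · rintro ⟨j, rfl, rfl⟩
    have h1 : (ρ.1.symm (k, j)).1 = i := by
      have h2 := (ρ.2 (ρ.1.symm (k, j)) (i, 0)).1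
      rw [Equiv.apply_symm_apply] at h2
      exact h2 h.symm
    refine ⟨xN (ρ.1.symm (k, j)), ⊤, el_bN.2 ⟨(ρ.1.symm (k, j)).2, ?_, rfl⟩, ?_, (sys.top ρ).symm⟩
    · rw [← h1]
    · rw [act_xN, Equiv.apply_symm_apply]

theorem act_AN (ρ : Gp) (p : Cd) : Feq (act (sys.ac ρ) AN) AN p := by
  rw [feq_iff']
  constructor
  · intro a c ha q hq hqc
    obtain ⟨z, d, hz, rfl, rfl⟩ := el_act.1 ha
    obtain ⟨i, rfl, rfl⟩ := el_AN.1 hz
    exact ⟨q, le_rfl, _, ⊤, el_AN.2 ⟨_, rfl, rfl⟩, le_top, act_bN rfl q⟩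
  · intro a c ha q hq hqc
    obtain ⟨k, rfl, rfl⟩ := el_AN.1 ha
    refine ⟨q, le_rfl, act (sys.ac ρ) (bN (ρ.1.symm (k, 0)).1), ⊤, el_act.2 ⟨_, ⊤,
      el_AN.2 ⟨_, rfl, rfl⟩, rfl, (sys.top ρ).symm⟩, le_top, act_bN ?_ q⟩
    have h1 := (ρ.2 ((ρ.1.symm (k, 0)).1, 0) (ρ.1.symm (k, 0))).2 rfl
    rw [h1, Equiv.apply_symm_apply]

theorem hs_xN (a : ℕ × ℕ) : sys.HS (xN a) := by
  refine sys.hs_iff.2 ⟨⟨_, ⟨{a}, rfl⟩, fun ρ hρ p => ?_⟩, fun z c hz => ?_⟩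
  · have h1 : ρ.1 a = a := hρ a (Finset.mem_singleton_self a)
    have h2 : act (sys.ac ρ) (xN a) = xN a := (act_xN ρ a).trans (by rw [h1])
    rw [h2]
    exact Feq.refl _ _
  · obtain ⟨n, rfl, rfl⟩ := el_xN.1 hz
    exact sys.hs_check _

theorem hs_bN (i : ℕ) : sys.HS (bN i) := by
  refine sys.hs_iff.2 ⟨⟨_, ⟨{(i, 0)}, rfl⟩, fun ρ hρ p => ?_⟩, fun z c hz => ?_⟩
  · have h1 : ρ.1 (i, 0) = (i, 0) := hρ _ (Finset.mem_singleton_self _)
    exact act_bN (by rw [h1]) p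
  · obtain ⟨n, rfl, rfl⟩ := el_bN.1 hz
    exact hs_xN _

theorem hs_AN : sys.HS AN := by
  refine sys.hs_iff.2 ⟨⟨_, ⟨∅, rfl⟩, fun ρ _ p => act_AN ρ p⟩, fun z c hz => ?_⟩
  obtain ⟨n, rfl, rfl⟩ := el_AN.1 hz
  exact hs_bN _

/-! ### Distinctness -/

theorem Cd.exists_fresh (p : Cd) (a b : ℕ × ℕ) : ∃ n, ∀ v, (a, n, v) ∉ p.s ∧ (b, n, v) ∉ p.s := by
  have h1 : ((fun x : (ℕ × ℕ) × ℕ × Bool => x.2.1) '' p.s).Finite := p.fin.image _
  obtain ⟨n, hn⟩ := h1.exists_notMem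
  exact ⟨n, fun v => ⟨fun h => hn ⟨_, h, rfl⟩, fun h => hn ⟨_, h, rfl⟩⟩⟩

theorem not_feq_xN {a b : ℕ × ℕ} (hab : a ≠ b) (p : Cd) : ¬ Feq (xN a) (xN b) p := by
  intro h
  obtain ⟨n, hn⟩ := p.exists_fresh a b
  let q : Cd :=
    { s := p.s ∪ {(a, n, true), (b, n, false)}
      fin := p.fin.union (Set.toFinite _)
      fn := by
        intro c m h1 h2
        rcases h1 with h1 | h1 <;> rcases h2 with h2 | h2
        · exact p.fn c m h1 h2
        · rw [Set.mem_insert_iff, Set.mem_singleton_iff] at h2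
          rcases h2 with h2 | h2
          · simp at h2
          · obtain ⟨rfl, h3⟩ := Prod.mk.inj h2
            obtain ⟨rfl, -⟩ := Prod.mk.inj h3
            exact (hn true).2 h1
        · rw [Set.mem_insert_iff, Set.mem_singleton_iff] at h1
          rcases h1 with h1 | h1
          · obtain ⟨rfl, h3⟩ := Prod.mk.inj h1
            obtain ⟨rfl, -⟩ := Prod.mk.inj h3
            exact (hn false).1 h2
          · simp at h1
        · rw [Set.mem_insert_iff, Set.mem_singleton_iff] at h1 h2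
          rcases h1 with h1 | h1
          · rcases h2 with h2 | h2
            · simp at h2
            · obtain ⟨h3, -⟩ := Prod.mk.inj h1
              obtain ⟨h4, -⟩ := Prod.mk.inj h2
              exact hab (h3.symm.trans h4)
          · simp at h1 }
  have hq : q ≤ p := fun x hx => Or.inl hx
  have hq1 : q ≤ sg a n true := by
    intro x hx
    rw [show x = (a, n, true) from hx]
    exact Or.inr (Or.inl rfl)
  obtain ⟨s, hs, w, d, hw, hd, he⟩ := (feq_iff'.1 h).1 (check (nat n)) (sg a n true)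
    (el_xN.2 ⟨n, rfl, rfl⟩) q hq hq1
  obtain ⟨m, rfl, rfl⟩ := el_xN.1 hw
  rw [feq_check] at he
  have hm := nat_injective he
  subst hm
  have h1 : (b, n, true) ∈ s.s := hd rfl
  have h2 : (b, n, false) ∈ s.s := hs (Or.inr (Or.inr rfl))
  exact s.fn _ _ h1 h2

theorem not_feq_bN {i k : ℕ} (hik : i ≠ k) (p : Cd) : ¬ Feq (bN i) (bN k) p := by
  intro h
  obtain ⟨s, hs, w, d, hw, hd, he⟩ := (feq_iff'.1 h).1 (xN (i, 0)) ⊤
    (el_bN.2 ⟨0, rfl, rfl⟩) p le_rfl le_top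
  obtain ⟨j, rfl, rfl⟩ := el_bN.1 hw
  refine not_feq_xN ?_ s he
  intro h1
  exact hik (Prod.mk.inj h1).1

/-! ### Moving the blocks -/

/-- The involution that swaps `[0, J)` and `[J, 2 J)`. -/
def sj (J j : ℕ) : ℕ := if j < J then j + J else if j < 2 * J then j - J else j

theorem sj_sj (J j : ℕ) : sj J (sj J j) = j := by
  unfold sj
  split_ifs <;> omega

theorem sj_ge {J j : ℕ} (h : j < J) : J ≤ sj J j := by
  unfold sj
  rw [if_pos h]
  omega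

/-- The permutation that moves the block `i` to the block `τ i`, and the first `J` members of the
block, if it is moved, to the next `J` members. -/
def shf (τ : Equiv.Perm ℕ) (J : ℕ) : Equiv.Perm (ℕ × ℕ) where
  toFun a := (τ a.1, if τ a.1 = a.1 then a.2 else sj J a.2)
  invFun a := (τ.symm a.1, if τ.symm a.1 = a.1 then a.2 else sj J a.2)
  left_inv := by
    rintro ⟨i, j⟩
    simp only [Equiv.symm_apply_apply]
    by_cases h : τ i = i
    · simp [h]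
    · rw [if_neg (fun h' => h h'.symm), if_neg h, sj_sj]
  right_inv := by
    rintro ⟨i, j⟩
    simp only [Equiv.apply_symm_apply]
    by_cases h : τ.symm i = i
    · simp [h]
    · rw [if_neg (fun h' => h h'.symm), if_neg h, sj_sj]

theorem shf_mem (τ : Equiv.Perm ℕ) (J : ℕ) : shf τ J ∈ Gp := by
  intro a b
  exact τ.injective.eq_iff

/-- The element of the group. -/
def shG (τ : Equiv.Perm ℕ) (J : ℕ) : Gp := ⟨shf τ J, shf_mem τ J⟩

theorem shG_fst (τ : Equiv.Perm ℕ) (J i : ℕ) : ((shG τ J).1 (i, 0)).1 = τ i := rfl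

theorem shG_fix {τ : Equiv.Perm ℕ} {J : ℕ} {E : Finset (ℕ × ℕ)} (h : ∀ a ∈ E, τ a.1 = a.1) :
    shG τ J ∈ fixE E := by
  intro a ha
  change (τ a.1, if τ a.1 = a.1 then a.2 else sj J a.2) = a
  rw [if_pos (h a ha), h a ha]

/-- A bound for the members of the blocks mentioned in a condition. -/
theorem Cd.exists_bound (p : Cd) : ∃ J, ∀ x ∈ p.s, x.1.2 < J := by
  have h1 : ((fun x : (ℕ × ℕ) × ℕ × Bool => x.1.2) '' p.s).Finite := p.fin.image _
  obtain ⟨J, hJ⟩ := h1.bddAbove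
  exact ⟨J + 1, fun x hx => Nat.lt_succ_of_le (hJ ⟨x, hx, rfl⟩)⟩

theorem compat {p : Cd} {τ : Equiv.Perm ℕ} {J : ℕ} (hJ : ∀ x ∈ p.s, x.1.2 < J) :
    ∃ q, q ≤ p ∧ q ≤ sys.ac (shG τ J) p := by
  have key : ∀ a x y, (a, x) ∈ p.s → (a, y) ∈ (mv (shf τ J) p).s → (a, y) ∈ p.s := by
    rintro ⟨i, j⟩ x y hx hy
    have h1 : ((τ.symm i, if τ.symm i = i then j else sj J j), y) ∈ p.s := hy
    by_cases h : τ.symm i = i
    · rwa [if_pos h, h] at h1
    · rw [if_neg h] at h1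
      have h2 := hJ _ h1
      have h3 := sj_ge (hJ _ hx)
      simp only at h2 h3
      omega
  refine ⟨⟨p.s ∪ (mv (shf τ J) p).s, p.fin.union (mv (shf τ J) p).fin, ?_⟩, fun x hx => Or.inl hx,
    fun x hx => Or.inr hx⟩
  intro a n h1 h2
  rcases h1 with h1 | h1 <;> rcases h2 with h2 | h2
  · exact p.fn a n h1 h2
  · exact p.fn a n h1 (key a _ _ h1 h2)
  · exact p.fn a n (key a _ _ h2 h1) h2
  · exact (mv (shf τ J) p).fn a n h1 h2

/-- The main lemma. -/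
theorem move {π : Pkg Cd} {E : Finset (ℕ × ℕ)} {t u u' : PName Cd} (ht : t ∈ π.N) (hu : u ∈ π.N)
    (hu' : u' ∈ π.N) (hfix : sys.Fix (fixE E) t) (τ : Equiv.Perm ℕ)
    (hτ : ∀ a ∈ E, τ a.1 = a.1)
    (h : ∀ ρ : Gp, (∀ i, (ρ.1 (i, 0)).1 = τ i) → ∀ p, Feq (act (sys.ac ρ) u) u' p)
    (hm : π.val u ∈ π.val t) : π.val u' ∈ π.val t := by
  by_contra hc
  obtain ⟨m, hm⟩ := (π.val_mem_iff hu ht).1 hm
  obtain ⟨k, h1 | h1, -⟩ := π.gen ⟨0, .mem (Sum.inr u') (Sum.inr t), Fin.elim0, ⊤⟩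
    ⟨⟨tOver_inr.2 hu', tOver_inr.2 ht⟩, fun i => i.elim0⟩
  · exact hc ((π.val_mem_iff hu' ht).2 ⟨k, h1⟩)
  · obtain ⟨J, hJ⟩ := (π.g (max m k)).exists_bound
    obtain ⟨q, hq, hq'⟩ := compat (τ := τ) hJ
    have h2 : Fmem u t (π.g (max m k)) := hm.mono (π.g_le_left m k)
    have h3 := fmem_act' (e := sys.ac (shG τ J)) h2
    have h4 : Fmem u' t q := by
      refine fmem_congr (h _ (shG_fst τ J) q) (hfix _ (shG_fix hτ) q) (h3.mono hq')
    exact h1 q (hq.trans (π.g_le_right m k)) h4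

end Pool.Agent.R598.CR
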