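import Pool.Agent.R598.SY.T_ZF
import Pool.Agent.R598.SY.T_TRU
import Pool.Agent.R598.SY.T_SEP

/-!
# Canonical Ramsey property and Ramsey property for pairs in a model of ZF: definitions
-/

set_option autoImplicit false

namespace Pool.Agent.R598.CR

open Pool.Agent.W868
open ZFSet (pair)

/-- The set `[X]²` of the two-element subsets of `X`. -/
def pairsOf (X : ZFSet.{0}) : ZFSet.{0} :=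
  ZFSet.sep (fun s => ∃ a ∈ X, ∃ b ∈ X, a ≠ b ∧ s = {a, b}) (ZFSet.powerset X)

/-- In the model `M` the set `Y` is infinite: `M` has no bijection between `Y` and a natural
number. -/
def InfIn (M : Set ZFSet.{0}) (Y : ZFSet.{0}) : Prop := ∀ n : ℕ, ¬ ∃ f ∈ M, IsBij Y (nat n) f

/-- The statement `RT²_n(X)` in the model `M`. -/
def RT2 (M : Set ZFSet.{0}) (X : ZFSet.{0}) (n : ℕ) : Prop :=
  ∀ c ∈ M, ZFSet.IsFunc (pairsOf X) (nat n) c → ∃ Y ∈ M, Y ⊆ X ∧ InfIn M Y ∧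
    ∃ t, ∀ a ∈ Y, ∀ b ∈ Y, a ≠ b → pair {a, b} t ∈ c

/-- `L` is (the set of the pairs of) a strict linear order on the set `Y`. -/
def IsLin (Y L : ZFSet.{0}) : Prop :=
  (∀ a ∈ Y, pair a a ∉ L) ∧
  (∀ a ∈ Y, ∀ b ∈ Y, ∀ c ∈ Y, pair a b ∈ L → pair b c ∈ L → pair a c ∈ L) ∧
  (∀ a ∈ Y, ∀ b ∈ Y, a ≠ b → pair a b ∈ L ∨ pair b a ∈ L)

/-- The function `f` has the same value at `s` and at `t`. -/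
def SameVal (f s t : ZFSet.{0}) : Prop := ∃ v, pair s v ∈ f ∧ pair t v ∈ f

/-- The function `f` on the two-element sets is canonical on the set `Y` with the linear
order `L`. -/
def Canon (f Y L : ZFSet.{0}) : Prop :=
  (∀ a₁ ∈ Y, ∀ b₁ ∈ Y, ∀ a₂ ∈ Y, ∀ b₂ ∈ Y, pair a₁ b₁ ∈ L → pair a₂ b₂ ∈ L →
    SameVal f {a₁, b₁} {a₂, b₂}) ∨
  (∀ a₁ ∈ Y, ∀ b₁ ∈ Y, ∀ a₂ ∈ Y, ∀ b₂ ∈ Y, pair a₁ b₁ ∈ L → pair a₂ b₂ ∈ L →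
    (SameVal f {a₁, b₁} {a₂, b₂} ↔ a₁ = a₂)) ∨
  (∀ a₁ ∈ Y, ∀ b₁ ∈ Y, ∀ a₂ ∈ Y, ∀ b₂ ∈ Y, pair a₁ b₁ ∈ L → pair a₂ b₂ ∈ L →
    (SameVal f {a₁, b₁} {a₂, b₂} ↔ b₁ = b₂)) ∨
  (∀ a₁ ∈ Y, ∀ b₁ ∈ Y, ∀ a₂ ∈ Y, ∀ b₂ ∈ Y, pair a₁ b₁ ∈ L → pair a₂ b₂ ∈ L →
    (SameVal f {a₁, b₁} {a₂, b₂} ↔ a₁ = a₂ ∧ b₁ = b₂))

/-- The statement `CRT(X)` in the model `M`. -/
def CRT (M : Set ZFSet.{0}) (X : ZFSet.{0}) : Prop :=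
  ∀ C ∈ M, ∀ f ∈ M, ZFSet.IsFunc (pairsOf X) C f → ∃ Y ∈ M, Y ⊆ X ∧ InfIn M Y ∧
    ∃ L ∈ M, IsLin Y L ∧ Canon f Y L

end Pool.Agent.R598.CR
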