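import Pool.Agent.R598.CR.Base

/-!
# The model: RT for pairs holds and CRT fails
-/

set_option autoImplicit false

namespace Pool.Agent.R598.CR

open Pool.Agent.W868 Pool.Agent.W868.PName Pool.Agent.R598.SY
open ZFSet (pair)

/-! ### Finite sets in a model -/

theorem isBij_insert {Y f a : ZFSet.{0}} {n : ℕ} (h : IsBij Y (nat n) f) (ha : a ∉ Y) :
    IsBij (insert a Y) (nat (n + 1)) (insert (pair a (nat n)) f) := by
  obtain ⟨⟨⟨h1, h2⟩, h3⟩, h4⟩ := h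
  have hn : nat n ∉ nat n := ZFSet.mem_irrefl _
  have hin : ∀ x y, pair x y ∈ f → x ∈ Y ∧ y ∈ nat n := fun x y hxy => ZFSet.pair_mem_prod.1 (h1 hxy)
  have hmem : ∀ x y, pair x y ∈ insert (pair a (nat n)) f ↔ (x = a ∧ y = nat n) ∨ pair x y ∈ f := by
    intro x y
    rw [ZFSet.mem_insert_iff, ZFSet.pair_inj]
  refine ⟨⟨⟨?_, ?_⟩, ?_⟩, ?_⟩
  · intro z hz
    rcases ZFSet.mem_insert_iff.1 hz with rfl | hz
    · exact ZFSet.pair_mem_prod.2 ⟨ZFSet.mem_insert_iff.2 (Or.inl rfl),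
        ZFSet.mem_insert_iff.2 (Or.inl rfl)⟩
    · obtain ⟨x, hx, y, hy, rfl⟩ := ZFSet.mem_prod.1 (h1 hz)
      exact ZFSet.pair_mem_prod.2 ⟨ZFSet.mem_insert_iff.2 (Or.inr hx),
        ZFSet.mem_insert_iff.2 (Or.inr hy)⟩
  · intro z hz
    rcases ZFSet.mem_insert_iff.1 hz with rfl | hz
    · refine ⟨nat n, (hmem _ _).2 (Or.inl ⟨rfl, rfl⟩), fun w hw => ?_⟩
      rcases (hmem _ _).1 hw with ⟨-, h⟩ | h
      · exact h
      · exact absurd (hin _ _ h).1 ha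
    · obtain ⟨w, hw, hu⟩ := h2 z hz
      refine ⟨w, (hmem _ _).2 (Or.inr hw), fun w' hw' => ?_⟩
      rcases (hmem _ _).1 hw' with ⟨h, -⟩ | h
      · exact absurd hz (h ▸ ha)
      · exact hu w' h
  · intro x y c hx hy
    rcases (hmem _ _).1 hx with ⟨hxa, hc⟩ | hx' <;> rcases (hmem _ _).1 hy with ⟨hya, hc'⟩ | hy'
    · exact hxa.trans hya.symm
    · exact absurd (hc ▸ (hin _ _ hy').2) hn
    · exact absurd (hc' ▸ (hin _ _ hx').2) hn
    · exact h3 x y c hx' hy'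
  · intro b hb
    rcases ZFSet.mem_insert_iff.1 hb with rfl | hb
    · exact ⟨a, ZFSet.mem_insert_iff.2 (Or.inl rfl), (hmem _ _).2 (Or.inl ⟨rfl, rfl⟩)⟩
    · obtain ⟨x, hx, hxb⟩ := h4 b hb
      exact ⟨x, ZFSet.mem_insert_iff.2 (Or.inr hx), (hmem _ _).2 (Or.inr hxb)⟩

theorem fin_bij {M : Set ZFSet.{0}} (hM : IsZF M) (s : Set ZFSet.{0}) (hs : s.Finite) :
    (∀ z ∈ s, z ∈ M) → ∃ Y ∈ M, (∀ z, z ∈ Y ↔ z ∈ s) ∧ ∃ n, ∃ f ∈ M, IsBij Y (nat n) f := by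
  induction s, hs using Set.Finite.induction_on with
  | empty =>
    intro _
    refine ⟨∅, hM.empty_mem, fun z => ?_, 0, ∅, hM.empty_mem, ⟨⟨?_, ?_⟩, ?_⟩, ?_⟩
    · exact ⟨fun h => absurd h (ZFSet.notMem_empty _), fun h => h.elim⟩
    · intro z hz
      exact absurd hz (ZFSet.notMem_empty _)
    · intro z hz
      exact absurd hz (ZFSet.notMem_empty _)
    · intro x y c hx
      exact absurd hx (ZFSet.notMem_empty _)
    · intro b hb
      exact absurd hb (ZFSet.notMem_empty _)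
  | @insert a s ha _ ih =>
    intro hz
    obtain ⟨Y, hY, h1, n, f, hf, h2⟩ := ih fun z hz' => hz z (Or.inr hz')
    have haM : a ∈ M := hz a (Or.inl rfl)
    refine ⟨insert a Y, hM.insert_mem haM hY, fun z => ?_, n + 1, insert (pair a (nat n)) f,
      hM.insert_mem (hM.pair_mem haM (hM.nat_mem n)) hf, isBij_insert h2 ?_⟩
    · rw [ZFSet.mem_insert_iff, h1]
      rfl
    · rw [h1]
      exact ha

theorem InfIn.infinite {M : Set ZFSet.{0}} (hM : IsZF M) {Y : ZFSet.{0}} (hY : Y ∈ M)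
    (h : InfIn M Y) : {z | z ∈ Y}.Infinite := by
  intro hfin
  obtain ⟨Y', hY', h1, n, f, hf, h2⟩ := fin_bij hM _ hfin fun z hz => hM.trans _ hY _ hz
  have h3 : Y' = Y := by
    ext z
    exact h1 z
  rw [h3] at h2
  exact h n ⟨f, hf, h2⟩

theorem finite_nat (n : ℕ) : {z | z ∈ nat n}.Finite := by
  induction n with
  | zero =>
    have h1 : {z | z ∈ nat 0} = ∅ := Set.eq_empty_of_forall_notMem fun z hz =>
      absurd hz (ZFSet.notMem_empty _)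
    rw [h1]
    exact Set.finite_empty
  | succ n ih =>
    refine (ih.insert (nat n)).subset fun z hz => ?_
    rcases ZFSet.mem_insert_iff.1 hz with h | h
    · exact Or.inl h
    · exact Or.inr h

theorem infIn_of_infinite {M : Set ZFSet.{0}} {Y : ZFSet.{0}} (h : {z | z ∈ Y}.Infinite) :
    InfIn M Y := by
  rintro n ⟨f, -, ⟨⟨⟨h1, h2⟩, h3⟩, -⟩⟩
  choose! g hg hg' using h2
  refine h (Set.Finite.of_finite_image (f := g) ((finite_nat n).subset ?_) ?_)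
  · rintro _ ⟨z, hz, rfl⟩
    exact (ZFSet.pair_mem_prod.1 (h1 (hg z hz))).2
  · intro x hx y hy hxy
    have h4 := hg x hx
    have h5 := hg y hy
    rw [hxy] at h4
    exact h3 x y _ h4 h5

theorem mem_pairsOf {X s : ZFSet.{0}} :
    s ∈ pairsOf X ↔ ∃ a ∈ X, ∃ b ∈ X, a ≠ b ∧ s = {a, b} := by
  rw [pairsOf, ZFSet.mem_sep, ZFSet.mem_powerset]
  constructor
  · exact fun h => h.2
  · rintro ⟨a, ha, b, hb, hab, rfl⟩
    refine ⟨fun z hz => ?_, a, ha, b, hb, hab, rfl⟩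
    rcases ZFSet.mem_pair.1 hz with rfl | rfl
    · exact ha
    · exact hb

theorem pairsOf_mem {M : Set ZFSet.{0}} (hM : IsZF M) {X : ZFSet.{0}} (hX : X ∈ M) :
    pairsOf X ∈ M := by
  obtain ⟨Pw, hPw, hPw'⟩ := hM.power _ hX
  have hB := hM.base
  have h1 := hM.sep_mem (Q := fun s => ∃ a ∈ X, ∃ b ∈ X, a ≠ b ∧ s = {a, b}) (by
    (repeat' first
      | assumption
      | exact DfnF.proj _
      | exact DfnF.const (by assumption)
      | apply Dfn.not | apply Dfn.and | apply Dfn.or | apply Dfn.imp | apply Dfn.iff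
      | apply hB.bex | apply hB.ball | apply Dfn.ex | apply Dfn.all
      | apply Dfn.eq | apply Dfn.mem | apply hB.upair')) hPw
  have h2 : ZFSet.sep (fun s => ∃ a ∈ X, ∃ b ∈ X, a ≠ b ∧ s = {a, b}) Pw = pairsOf X := by
    ext s
    rw [ZFSet.mem_sep, hPw', mem_pairsOf]
    constructor
    · exact fun h => h.2
    · rintro ⟨a, ha, b, hb, hab, rfl⟩
      refine ⟨⟨hM.pairing _ (hM.trans _ hX _ ha) _ (hM.trans _ hX _ hb), fun z hz => ?_⟩,
        a, ha, b, hb, hab, rfl⟩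
      rcases ZFSet.mem_pair.1 hz with rfl | rfl
      · exact ha
      · exact hb
  rwa [h2] at h1

/-! ### The model -/

/-- The permutation that takes `i` to `i'` and `k` to `k'`. -/
def tau (i k i' k' : ℕ) : Equiv.Perm ℕ :=
  Equiv.swap (Equiv.swap i i' k) k' * Equiv.swap i i'

theorem tau_left {i k i' k' : ℕ} (h : i ≠ k) (h' : i' ≠ k') : tau i k i' k' i = i' := by
  unfold tau
  rw [Equiv.Perm.mul_apply, Equiv.swap_apply_left]
  refine Equiv.swap_apply_of_ne_of_ne ?_ h'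
  intro h1
  apply h
  apply (Equiv.swap i i').injective
  rw [Equiv.swap_apply_left]
  exact h1

theorem tau_right (i k i' k' : ℕ) : tau i k i' k' k = k' := by
  unfold tau
  rw [Equiv.Perm.mul_apply, Equiv.swap_apply_left]

theorem tau_fix {i k i' k' m : ℕ} (h1 : m ≠ i) (h2 : m ≠ k) (h3 : m ≠ i') (h4 : m ≠ k') :
    tau i k i' k' m = m := by
  unfold tau
  rw [Equiv.Perm.mul_apply, Equiv.swap_apply_of_ne_of_ne h1 h3]
  refine Equiv.swap_apply_of_ne_of_ne ?_ h4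
  intro h5
  apply h2
  apply (Equiv.swap i i').injective
  rw [Equiv.swap_apply_of_ne_of_ne h1 h3]
  exact h5

section

variable {π : Pkg Cd} (hbN : ∀ i, bN i ∈ π.N) (hAN : AN ∈ π.N)

include hbN

theorem val_bN_inj {i k : ℕ} (h : π.val (bN i) = π.val (bN k)) : i = k := by
  by_contra hik
  obtain ⟨n, hn⟩ := (π.val_eq_iff (hbN i) (hbN k)).1 h
  exact not_feq_bN hik _ hn

theorem mem_AN {z : ZFSet.{0}} : z ∈ π.val AN ↔ ∃ i, z = π.val (bN i) := by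
  rw [π.mem_val]
  constructor
  · rintro ⟨y, hy, c, hc, -, rfl⟩
    obtain ⟨i, rfl, -⟩ := el_AN.1 hc
    exact ⟨i, rfl⟩
  · rintro ⟨i, rfl⟩
    exact ⟨bN i, hbN i, ⊤, el_AN.2 ⟨i, rfl, rfl⟩, ⟨0, le_top⟩, rfl⟩

/-- Moving a pair of blocks, ordered pairs. -/
theorem move_op {E : Finset (ℕ × ℕ)} {t : PName Cd} (ht : t ∈ π.N) (hfix : sys.Fix (fixE E) t)
    {i k i' k' : ℕ} (hik : i ≠ k) (hik' : i' ≠ k')
    (hi : ∀ a ∈ E, a.1 ≠ i) (hk : ∀ a ∈ E, a.1 ≠ k)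
    (hi' : ∀ a ∈ E, a.1 ≠ i') (hk' : ∀ a ∈ E, a.1 ≠ k')
    (h : pair (π.val (bN i)) (π.val (bN k)) ∈ π.val t) :
    pair (π.val (bN i')) (π.val (bN k')) ∈ π.val t := by
  rw [← π.val_opN (hbN _) (hbN _)] at h ⊢
  refine move ht (π.opN_mem (hbN _) (hbN _)) (π.opN_mem (hbN _) (hbN _)) hfix
    (tau i k i' k') (fun a ha => tau_fix (hi a ha) (hk a ha) (hi' a ha) (hk' a ha)) ?_ h
  intro ρ hρ p
  rw [act_opN (sys.top ρ)]
  refine feq_opN (act_bN ?_ p) (act_bN ?_ p)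
  · rw [hρ, tau_left hik hik']
  · rw [hρ, tau_right]

/-- Moving a pair of blocks, colours of unordered pairs. -/
theorem move_col {E : Finset (ℕ × ℕ)} {t : PName Cd} (ht : t ∈ π.N) (hfix : sys.Fix (fixE E) t)
    {i k i' k' : ℕ} (hik : i ≠ k) (hik' : i' ≠ k')
    (hi : ∀ a ∈ E, a.1 ≠ i) (hk : ∀ a ∈ E, a.1 ≠ k)
    (hi' : ∀ a ∈ E, a.1 ≠ i') (hk' : ∀ a ∈ E, a.1 ≠ k') {m : ℕ}
    (h : pair {π.val (bN i), π.val (bN k)} (nat m) ∈ π.val t) :
    pair {π.val (bN i'), π.val (bN k')} (nat m) ∈ π.val t := by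
  have hm : check (nat m) ∈ π.N := π.nat_Z m
  have hm' : π.val (check (nat m)) = nat m := π.hat_nat m
  rw [← hm', ← π.val_pairN (hbN _) (hbN _), ← π.val_opN (π.pairN_mem (hbN _) (hbN _)) hm] at h ⊢
  refine move ht (π.opN_mem (π.pairN_mem (hbN _) (hbN _)) hm)
    (π.opN_mem (π.pairN_mem (hbN _) (hbN _)) hm) hfix
    (tau i k i' k') (fun a ha => tau_fix (hi a ha) (hk a ha) (hi' a ha) (hk' a ha)) ?_ h
  intro ρ hρ p
  rw [act_opN (sys.top ρ), act_pairN (sys.top ρ), act_check (sys.top ρ)]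
  refine feq_opN (feq_pairN (act_bN ?_ p) (act_bN ?_ p)) (Feq.refl _ _)
  · rw [hρ, tau_left hik hik']
  · rw [hρ, tau_right]

omit hbN in
theorem exists_supp {x : ZFSet.{0}} (hx : x ∈ sys.Ms π) :
    ∃ t ∈ π.N, π.val t = x ∧ ∃ E, sys.Fix (fixE E) t := by
  obtain ⟨t, ⟨ht, hs⟩, rfl⟩ := hx
  obtain ⟨_, ⟨E, rfl⟩, hE⟩ := hs.sym
  exact ⟨t, ht, rfl, E, hE⟩

/-- An infinite set of blocks has two blocks off a given finite set. -/
theorem two_off {Y : ZFSet.{0}} (hY : Y ⊆ π.val AN) (hinf : {z | z ∈ Y}.Infinite)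
    (E : Finset (ℕ × ℕ)) : ∃ i k, i ≠ k ∧ (∀ a ∈ E, a.1 ≠ i) ∧ (∀ a ∈ E, a.1 ≠ k) ∧
      π.val (bN i) ∈ Y ∧ π.val (bN k) ∈ Y := by
  classical
  have h1 : {i | π.val (bN i) ∈ Y}.Infinite := by
    intro hfin
    refine hinf ((hfin.image fun i => π.val (bN i)).subset fun z hz => ?_)
    obtain ⟨i, rfl⟩ := (mem_AN hbN).1 (hY hz)
    exact ⟨i, hz, rfl⟩
  have h2 := h1.sdiff (Finset.finite_toSet (E.image Prod.fst))
  obtain ⟨i, hi⟩ := h2.nonempty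
  obtain ⟨k, hk, hki⟩ := (h2.sdiff (Set.finite_singleton i)).nonempty
  have h3 : ∀ m, m ∉ (↑(E.image Prod.fst) : Set ℕ) → ∀ a ∈ E, a.1 ≠ m := by
    rintro _ hm a ha rfl
    exact hm (Finset.mem_coe.2 (Finset.mem_image_of_mem _ ha))
  exact ⟨i, k, fun h => hki h.symm, h3 i hi.2, h3 k hk.2, hi.1, hk.1⟩

theorem not_lin (hM : IsZF (sys.Ms π)) {Y L : ZFSet.{0}} (hYM : Y ∈ sys.Ms π)
    (hLM : L ∈ sys.Ms π) (hY : Y ⊆ π.val AN) (hinf : InfIn (sys.Ms π) Y) : ¬ IsLin Y L := by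
  rintro ⟨h1, h2, h3⟩
  obtain ⟨t, ht, rfl, E, hE⟩ := exists_supp hLM
  obtain ⟨i, k, hik, hi, hk, hiY, hkY⟩ := two_off hbN hY (hinf.infinite hM hYM) E
  have hne : π.val (bN i) ≠ π.val (bN k) := fun h => hik (val_bN_inj hbN h)
  rcases h3 _ hiY _ hkY hne with h | h
  · have h4 := move_op hbN ht hE hik hik.symm hi hk hk hi h
    exact h1 _ hiY (h2 _ hiY _ hkY _ hiY h h4)
  · have h4 := move_op hbN ht hE hik.symm hik hk hi hi hk h
    exact h1 _ hiY (h2 _ hiY _ hkY _ hiY h4 h)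

theorem not_CRT (hM : IsZF (sys.Ms π)) (hA : π.val AN ∈ sys.Ms π) :
    ¬ CRT (sys.Ms π) (π.val AN) := by
  intro h
  have h0 := hM.empty_mem
  have hC := hM.single_mem h0
  have hP := pairsOf_mem hM hA
  obtain ⟨Y, hY, hYA, hinf, L, hL, hlin, -⟩ := h {∅} hC
    (ZFSet.prod (pairsOf (π.val AN)) {∅}) (hM.prod_mem hP hC) (by
      refine ⟨subset_rfl, fun z hz => ⟨∅, ZFSet.pair_mem_prod.2 ⟨hz, ZFSet.mem_singleton.2 rfl⟩,
        fun w hw => ZFSet.mem_singleton.1 (ZFSet.pair_mem_prod.1 hw).2⟩⟩)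
  exact not_lin hbN hM hY hL hYA hinf hlin

include hAN

theorem rt2 (hM : IsZF (sys.Ms π)) (n : ℕ) : RT2 (sys.Ms π) (π.val AN) n := by
  classical
  intro c hc hf
  obtain ⟨t, ht, rfl, E, hE⟩ := exists_supp hc
  have hbM : ∀ i, π.val (bN i) ∈ sys.Ms π := fun i => ⟨_, ⟨hbN i, hs_bN i⟩, rfl⟩
  have hA : π.val AN ∈ sys.Ms π := ⟨_, ⟨hAN, hs_AN⟩, rfl⟩
  obtain ⟨D, hD, hD', -⟩ := fin_bij hM ((fun i => π.val (bN i)) '' (↑(E.image Prod.fst) : Set ℕ))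
    ((Finset.finite_toSet _).image _) (by
      rintro _ ⟨i, -, rfl⟩
      exact hbM i)
  have hB := hM.base
  have hYM := hM.sep_mem (Q := fun z => ¬ z ∈ D) (by
    (repeat' first
      | assumption
      | exact DfnF.proj _
      | exact DfnF.const (by assumption)
      | apply Dfn.not | apply Dfn.and | apply Dfn.or | apply Dfn.imp | apply Dfn.iff
      | apply hB.bex | apply hB.ball | apply Dfn.ex | apply Dfn.all
      | apply Dfn.eq | apply Dfn.mem)) hA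
  have hoff : ∀ i, (∀ a ∈ E, a.1 ≠ i) ↔ π.val (bN i) ∈ ZFSet.sep (fun z => ¬ z ∈ D) (π.val AN) := by
    intro i
    rw [ZFSet.mem_sep, hD']
    constructor
    · intro h
      refine ⟨(mem_AN hbN).2 ⟨i, rfl⟩, ?_⟩
      rintro ⟨m, hm, hmi⟩
      have h1 := val_bN_inj hbN hmi
      subst h1
      obtain ⟨a, ha, ham⟩ := Finset.mem_image.1 (Finset.mem_coe.1 hm)
      exact h a ha ham
    · rintro ⟨-, h⟩ a ha hai
      exact h ⟨i, Finset.mem_coe.2 (Finset.mem_image.2 ⟨a, ha, hai⟩), rfl⟩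
  have hall : {z | z ∈ π.val AN}.Infinite := by
    have h1 : Set.Infinite (Set.range fun i => π.val (bN i)) :=
      Set.infinite_range_of_injective fun i k h => val_bN_inj hbN h
    refine h1.mono ?_
    rintro _ ⟨i, rfl⟩
    exact (mem_AN hbN).2 ⟨i, rfl⟩
  have hYinf : {z | z ∈ ZFSet.sep (fun z => ¬ z ∈ D) (π.val AN)}.Infinite := by
    have h1 := hall.sdiff ((Finset.finite_toSet (E.image Prod.fst)).image fun i => π.val (bN i))
    refine h1.mono fun z hz => ?_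
    refine ZFSet.mem_sep.2 ⟨hz.1, fun h => hz.2 ((hD' z).1 h)⟩
  obtain ⟨i₀, k₀, hik₀, hi₀, hk₀, -, -⟩ := two_off hbN (fun z hz => hz) hall E
  obtain ⟨v, hv, -⟩ := hf.2 {π.val (bN i₀), π.val (bN k₀)} (mem_pairsOf.2
    ⟨_, (mem_AN hbN).2 ⟨i₀, rfl⟩, _, (mem_AN hbN).2 ⟨k₀, rfl⟩,
      fun h => hik₀ (val_bN_inj hbN h), rfl⟩)
  obtain ⟨m, rfl⟩ : ∃ m, v = nat m := by
    have h1 := (ZFSet.pair_mem_prod.1 (hf.1 hv)).2
    refine mem_omega_iff.1 ?_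
    have h2 : nat n ∈ ZFSet.omega := mem_omega_iff.2 ⟨n, rfl⟩
    exact (omega_eq ▸ ZFSet.isOrdinal_toZFSet _).mem_trans h1 h2
  refine ⟨_, hYM, fun z hz => (ZFSet.mem_sep.1 hz).1, infIn_of_infinite hYinf, nat m, ?_⟩
  intro a ha b hb hab
  obtain ⟨i, rfl⟩ := (mem_AN hbN).1 (ZFSet.mem_sep.1 ha).1
  obtain ⟨k, rfl⟩ := (mem_AN hbN).1 (ZFSet.mem_sep.1 hb).1
  have hik : i ≠ k := by
    rintro rfl
    exact hab rfl
  exact move_col hbN ht hE hik₀ hik hi₀ hk₀ ((hoff i).2 ha) ((hoff k).2 hb) hv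

end

/-- The model. -/
theorem main : ∃ M : Set ZFSet.{0}, M.Countable ∧ IsZF M ∧ ∃ X ∈ M, ¬ CRT M X ∧
    ∀ n : ℕ, RT2 M X n := by
  obtain ⟨π, hA, -, hcl⟩ := exists_pkg sys.rules (Set.Finite.countable (by
    unfold Sys.rules
    exact Set.toFinite _)) ({AN} ∪ Set.range bN)
    ((Set.countable_singleton _).union (Set.countable_range _)) ⊤
  have hCld : sys.Cld π := fun ρ hρ => hcl ρ hρ
  have hM : IsZF (sys.Ms π) := SY.T_ZF.main SY.T_TRU.main SY.T_SEP.main _ _ π hCld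
  have hbN : ∀ i, bN i ∈ π.N := fun i => hA (Or.inr ⟨i, rfl⟩)
  have hAN : AN ∈ π.N := hA (Or.inl rfl)
  have hAM : π.val AN ∈ sys.Ms π := ⟨_, ⟨hAN, hs_AN⟩, rfl⟩
  exact ⟨sys.Ms π, (π.cnt.mono fun _ h => h.1).image _, hM, _, hAM, not_CRT hbN hM hAM,
    fun n => rt2 hbN hAN hM n⟩

end Pool.Agent.R598.CR
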